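import Mathlib

/-! Generalized Minkowski arrangements: the hexagonal lattice and its half-open cells. -/

namespace Pool.Agent.TH388.GM
open MeasureTheory Metric Set

/-- the lattice vector `m u + n v`, `u = 1`, `v = 1/2 + i √3/2` -/
noncomputable def lat (l : ℤ × ℤ) : ℂ := ⟨l.1 + l.2 / 2, l.2 * (√3 / 2)⟩

noncomputable def al (z : ℂ) : ℝ := z.re - z.im / √3
noncomputable def be (z : ℂ) : ℝ := 2 * z.im / √3

theorem s3 : √3 * √3 = 3 := Real.mul_self_sqrt (by norm_num)
theorem s3pos : 0 < √3 := Real.sqrt_pos.2 (by norm_num)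

theorem lat_zero : lat 0 = 0 := by
  apply Complex.ext <;> simp [lat]

theorem lat_add (l m : ℤ × ℤ) : lat (l + m) = lat l + lat m := by
  apply Complex.ext
  · simp [lat]; ring
  · simp [lat]; ring

theorem lat_neg (l : ℤ × ℤ) : lat (-l) = - lat l := by
  apply Complex.ext
  · simp [lat]; ring
  · simp [lat]

theorem lat_sub (l m : ℤ × ℤ) : lat (l - m) = lat l - lat m := by
  rw [sub_eq_add_neg, lat_add, lat_neg, sub_eq_add_neg]

theorem al_add (z w : ℂ) : al (z + w) = al z + al w := by simp [al]; ring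
theorem be_add (z w : ℂ) : be (z + w) = be z + be w := by simp [be]; ring
theorem al_sub (z w : ℂ) : al (z - w) = al z - al w := by simp [al]; ring
theorem be_sub (z w : ℂ) : be (z - w) = be z - be w := by simp [be]; ring
theorem al_lat (l : ℤ × ℤ) : al (lat l) = l.1 := by
  have := s3pos
  simp [al, lat]; field_simp; ring
theorem be_lat (l : ℤ × ℤ) : be (lat l) = l.2 := by
  have := s3pos
  simp [be, lat]; field_simp

theorem normSq_eq (z : ℂ) : ‖z‖ ^ 2 = al z ^ 2 + al z * be z + be z ^ 2 := by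
  rw [← Complex.normSq_eq_norm_sq, Complex.normSq_apply]
  have h := s3pos
  have h3 := s3
  unfold al be
  field_simp
  have : √3 ^ 2 = 3 := by rw [pow_two, h3]
  have h4 : √3 ^ 4 = 9 := by
    calc √3 ^ 4 = (√3 ^ 2) ^ 2 := by ring
      _ = 9 := by rw [this]; norm_num
  have h5 : √3 ^ 3 = 3 * √3 := by
    calc √3 ^ 3 = √3 ^ 2 * √3 := by ring
      _ = 3 * √3 := by rw [this]
  nlinarith [this, h4, h5]

theorem norm_lat_sq (l : ℤ × ℤ) : ‖lat l‖ ^ 2 = ((l.1 ^ 2 + l.1 * l.2 + l.2 ^ 2 : ℤ) : ℝ) := by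
  rw [normSq_eq, al_lat, be_lat]; push_cast; ring

/-- the norm form is at least one away from zero -/
theorem form_pos {l : ℤ × ℤ} (h : l ≠ 0) : 1 ≤ l.1 ^ 2 + l.1 * l.2 + l.2 ^ 2 := by
  obtain ⟨m, n⟩ := l
  simp only
  have h1 : m ≠ 0 ∨ n ≠ 0 := by
    by_contra hc
    push Not at hc
    exact h (by rw [hc.1, hc.2]; rfl)
  rcases h1 with h1 | h1
  · have : 0 < m ^ 2 := by positivity
    nlinarith [sq_nonneg (m + 2 * n)]
  · have : 0 < n ^ 2 := by positivity
    nlinarith [sq_nonneg (2 * m + n)]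

theorem one_le_norm_lat {l : ℤ × ℤ} (h : l ≠ 0) : 1 ≤ ‖lat l‖ := by
  have h1 : (1 : ℝ) ≤ ‖lat l‖ ^ 2 := by
    rw [norm_lat_sq]; exact_mod_cast form_pos h
  nlinarith [norm_nonneg (lat l)]

/-- index of the cell of a point -/
noncomputable def fl (z : ℂ) : ℤ × ℤ := (⌊al z⌋, ⌊be z⌋)

theorem continuous_al : Continuous al := by
  unfold al
  exact Complex.continuous_re.sub (Complex.continuous_im.div_const _)
theorem continuous_be : Continuous be := by
  unfold be
  exact (continuous_const.mul Complex.continuous_im).div_const _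

theorem measurable_fl : Measurable fl :=
  (Int.measurable_floor.comp continuous_al.measurable).prodMk
    (Int.measurable_floor.comp continuous_be.measurable)

/-- the half open cell with corner `lat l` -/
def cell (l : ℤ × ℤ) : Set ℂ := fl ⁻¹' {l}

theorem measurableSet_cell (l : ℤ × ℤ) : MeasurableSet (cell l) :=
  measurable_fl (measurableSet_singleton l)

theorem mem_cell {l : ℤ × ℤ} {z : ℂ} : z ∈ cell l ↔ fl z = l := Iff.rfl

theorem fl_sub_lat (z : ℂ) (l : ℤ × ℤ) : fl (z - lat l) = fl z - l := by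
  unfold fl
  rw [al_sub, be_sub, al_lat, be_lat, Int.floor_sub_intCast, Int.floor_sub_intCast]
  rfl

theorem fl_add_lat (z : ℂ) (l : ℤ × ℤ) : fl (z + lat l) = fl z + l := by
  have := fl_sub_lat z (-l)
  rw [lat_neg, sub_neg_eq_add] at this
  rw [this]; abel

theorem mem_cell_iff {l : ℤ × ℤ} {z : ℂ} : z ∈ cell l ↔ z - lat l ∈ cell 0 := by
  rw [mem_cell, mem_cell, fl_sub_lat, sub_eq_zero]

theorem mem_cell_zero {z : ℂ} : z ∈ cell 0 ↔ (0 ≤ al z ∧ al z < 1) ∧ (0 ≤ be z ∧ be z < 1) := by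
  rw [mem_cell]
  unfold fl
  rw [Prod.ext_iff]
  simp only [Prod.fst_zero, Prod.snd_zero, Int.floor_eq_zero_iff, mem_Ico]

theorem norm_le_two_of_mem {z : ℂ} (h : z ∈ cell 0) : ‖z‖ ≤ 2 := by
  rw [mem_cell_zero] at h
  obtain ⟨⟨h1, h2⟩, h3, h4⟩ := h
  have h5 : ‖z‖ ^ 2 ≤ 3 := by
    rw [normSq_eq]; nlinarith
  nlinarith [norm_nonneg z]

theorem dist_cell {z : ℂ} {l : ℤ × ℤ} (h : z ∈ cell l) : ‖z - lat l‖ ≤ 2 :=
  norm_le_two_of_mem (mem_cell_iff.1 h)

/-- area of the cell -/
noncomputable def p : ℝ := volume.real (cell 0)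

theorem cell_zero_subset : cell 0 ⊆ closedBall 0 2 := fun z hz => by
  rw [mem_closedBall, dist_zero_right]; exact norm_le_two_of_mem hz

theorem volume_cell_zero_ne_top : volume (cell 0) ≠ ⊤ :=
  ne_top_of_le_ne_top (measure_closedBall_lt_top (x := (0:ℂ)) (r := 2)).ne
    (measure_mono cell_zero_subset)

theorem isOpen_box : IsOpen {z : ℂ | (0 < al z ∧ al z < 1) ∧ (0 < be z ∧ be z < 1)} := by
  apply IsOpen.inter
  · exact (isOpen_lt continuous_const continuous_al).inter (isOpen_lt continuous_al continuous_const)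
  · exact (isOpen_lt continuous_const continuous_be).inter (isOpen_lt continuous_be continuous_const)

/-- the open cell -/
def ocell : Set ℂ := {z : ℂ | (0 < al z ∧ al z < 1) ∧ (0 < be z ∧ be z < 1)}

theorem isOpen_ocell : IsOpen ocell := isOpen_box

theorem ocell_subset : ocell ⊆ cell 0 := fun z hz => by
  rw [mem_cell_zero]
  exact ⟨⟨hz.1.1.le, hz.1.2⟩, hz.2.1.le, hz.2.2⟩

theorem exists_coords (a b : ℝ) : ∃ z : ℂ, al z = a ∧ be z = b := by
  refine ⟨⟨a + b / 2, b * (√3 / 2)⟩, ?_, ?_⟩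
  · have := s3pos
    simp [al]; field_simp; ring
  · have := s3pos
    simp [be]; field_simp

theorem p_pos : 0 < p := by
  unfold p
  rw [measureReal_def]
  apply ENNReal.toReal_pos _ volume_cell_zero_ne_top
  obtain ⟨z, hz1, hz2⟩ := exists_coords (1/2) (1/2)
  have hne : ocell.Nonempty := ⟨z, by
    refine ⟨⟨?_, ?_⟩, ?_, ?_⟩ <;> simp only [hz1, hz2] <;> norm_num⟩
  have := isOpen_ocell.measure_pos volume hne
  exact (this.trans_le (measure_mono ocell_subset)).ne'

theorem volume_cell (l : ℤ × ℤ) : volume (cell l) = volume (cell 0) := by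
  have : cell l = (fun z => z + (- lat l)) ⁻¹' cell 0 := by
    ext z
    rw [mem_cell_iff, mem_preimage, sub_eq_add_neg]
  rw [this, measure_preimage_add_right]

/-- cells at scale `h` -/
theorem volume_cell_scaled {h : ℝ} (hh : 0 < h) (l : ℤ × ℤ) :
    volume.real ((fun z : ℂ => h⁻¹ • z) ⁻¹' cell l) = h ^ 2 * p := by
  rw [measureReal_def, Measure.addHaar_preimage_smul volume (inv_ne_zero hh.ne'), volume_cell]
  rw [ENNReal.toReal_mul, Complex.finrank_real_complex, p, measureReal_def]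
  congr 1
  rw [inv_pow, inv_inv, abs_of_pos (by positivity), ENNReal.toReal_ofReal (by positivity)]

theorem tsum_inter_cell {O : Set ℂ} (hO : MeasurableSet O) :
    ∑' l, volume (O ∩ cell l) = volume O := by
  rw [← measure_iUnion]
  · congr 1
    rw [← inter_iUnion]
    have : ⋃ l, cell l = univ := by
      ext z; simp [mem_cell]
    rw [this, inter_univ]
  · intro l m hlm
    rw [Function.onFun, Set.disjoint_left]
    rintro z ⟨_, h1⟩ ⟨_, h2⟩
    exact hlm (h1.symm.trans h2)
  · intro l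
    exact hO.inter (measurableSet_cell l)

/-- periodized sets: the part in the cell is at most the whole -/
theorem volume_periodized_le {O : Set ℂ} (hO : MeasurableSet O) :
    volume (cell 0 ∩ ⋃ l, (fun z => z - lat l) ⁻¹' O) ≤ volume O := by
  rw [inter_iUnion]
  refine (measure_iUnion_le _).trans ?_
  have : ∀ l, volume (cell 0 ∩ (fun z => z - lat l) ⁻¹' O) = volume (O ∩ cell (-l)) := by
    intro l
    have e : cell 0 ∩ (fun z => z - lat l) ⁻¹' O = (fun z => z + (- lat l)) ⁻¹' (O ∩ cell (-l)) := by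
      ext z
      simp only [mem_inter_iff, mem_preimage, ← sub_eq_add_neg]
      rw [mem_cell_iff (l := -l), lat_neg, sub_neg_eq_add, sub_add_cancel, and_comm]
    rw [e, measure_preimage_add_right]
  simp_rw [this]
  have e2 := (Equiv.neg (ℤ × ℤ)).tsum_eq (fun l => volume (O ∩ cell l))
  simp only [Equiv.neg_apply] at e2
  rw [e2, tsum_inter_cell hO]

end Pool.Agent.TH388.GM
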