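import Mathlib

/-! Areas of lenses (intersections of two discs). -/

namespace Pool.Agent.TH388.GM
open MeasureTheory Metric Set

/-- area of the intersection of a disc of radius `a` and a disc of radius `b` at distance `d` -/
noncomputable def Len (a b d : ℝ) : ℝ := volume.real (ball (0:ℂ) a ∩ ball (d:ℂ) b)

theorem vol_ball (c : ℂ) {r : ℝ} (hr : 0 ≤ r) : volume.real (ball c r) = Real.pi * r ^ 2 := by
  rw [measureReal_def, Complex.volume_ball, ENNReal.toReal_mul, ENNReal.toReal_pow,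
    ENNReal.toReal_ofReal hr]
  simp [NNReal.coe_real_pi]; ring

theorem ball_ne_top (c : ℂ) (r : ℝ) : volume (ball c r) ≠ ⊤ := measure_ball_lt_top.ne

theorem lens_ne_top (a b : ℂ) (r s : ℝ) : volume (ball a r ∩ ball b s) ≠ ⊤ :=
  ne_top_of_le_ne_top (ball_ne_top a r) (measure_mono inter_subset_left)

theorem lens_trans (a b : ℂ) (r s : ℝ) :
    volume (ball a r ∩ ball b s) = volume (ball (0:ℂ) r ∩ ball (b - a) s) := by
  have : ball a r ∩ ball b s = (fun z => z + (-a)) ⁻¹' (ball (0:ℂ) r ∩ ball (b - a) s) := by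
    ext z
    simp only [mem_inter_iff, mem_preimage, mem_ball, dist_eq_norm, ← sub_eq_add_neg, sub_zero,
      sub_sub_sub_cancel_right]
  rw [this, measure_preimage_add_right]

theorem lens_rot {c : ℂ} {d : ℝ} (h : ‖c‖ = d) (r s : ℝ) :
    volume (ball (0:ℂ) r ∩ ball c s) = volume (ball (0:ℂ) r ∩ ball (d:ℂ) s) := by
  have hd : 0 ≤ d := by rw [← h]; exact norm_nonneg c
  obtain ⟨w, hw⟩ : ∃ w : Circle, (w : ℂ) * c = d := by
    rcases eq_or_lt_of_le hd with h0 | h0
    · refine ⟨1, ?_⟩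
      have : c = 0 := norm_eq_zero.1 (h.trans h0.symm)
      rw [this, ← h0]; simp
    · have hc : c ≠ 0 := by
        intro hc; rw [hc, norm_zero] at h; exact h0.ne h
      have hn : ‖(d : ℂ) / c‖ = 1 := by
        rw [norm_div, h, Complex.norm_real, Real.norm_of_nonneg hd, div_self h0.ne']
      refine ⟨⟨(d : ℂ) / c, mem_sphere_zero_iff_norm.2 hn⟩, ?_⟩
      simp only
      rw [div_mul_cancel₀ _ hc]
  have e : (rotation w) ⁻¹' (ball (0:ℂ) r ∩ ball (d:ℂ) s) = ball (0:ℂ) r ∩ ball c s := by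
    ext z
    simp only [mem_inter_iff, mem_preimage, mem_ball, dist_eq_norm, sub_zero, rotation_apply]
    rw [← hw, ← mul_sub, norm_mul, norm_mul, Circle.norm_coe, one_mul, one_mul]
  rw [← e]
  exact (rotation w).measurePreserving.measure_preimage
    (measurableSet_ball.inter measurableSet_ball).nullMeasurableSet

theorem lens_eq (a b : ℂ) {d : ℝ} (h : ‖b - a‖ = d) (r s : ℝ) :
    volume.real (ball a r ∩ ball b s) = Len r s d := by
  rw [measureReal_def, lens_trans, lens_rot h, Len, measureReal_def]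

theorem Len_scale {k : ℝ} (hk : 0 < k) (a b d : ℝ) :
    Len (k * a) (k * b) (k * d) = k ^ 2 * Len a b d := by
  have e : (fun z : ℂ => k⁻¹ • z) ⁻¹' (ball (0:ℂ) a ∩ ball (d:ℂ) b) =
      ball (0:ℂ) (k * a) ∩ ball ((k * d : ℝ):ℂ) (k * b) := by
    ext z
    simp only [mem_inter_iff, mem_preimage, mem_ball, dist_eq_norm, sub_zero]
    have h1 : ‖k⁻¹ • z‖ < a ↔ ‖z‖ < k * a := by
      rw [norm_smul, Real.norm_of_nonneg (by positivity), inv_mul_lt_iff₀ hk]
    have h2 : ‖k⁻¹ • z - (d:ℂ)‖ < b ↔ ‖z - ((k * d : ℝ):ℂ)‖ < k * b := by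
      have : k⁻¹ • z - (d:ℂ) = k⁻¹ • (z - ((k * d : ℝ):ℂ)) := by
        rw [smul_sub]
        congr 1
        rw [Complex.real_smul]
        have : (k : ℂ) ≠ 0 := by exact_mod_cast hk.ne'
        push_cast
        field_simp
      rw [this, norm_smul, Real.norm_of_nonneg (by positivity), inv_mul_lt_iff₀ hk]
    rw [h1, h2]
  unfold Len
  rw [← e, measureReal_def, Measure.addHaar_preimage_smul volume (inv_ne_zero hk.ne'),
    ENNReal.toReal_mul, Complex.finrank_real_complex, measureReal_def]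
  congr 1
  rw [inv_pow, inv_inv, abs_of_pos (by positivity), ENNReal.toReal_ofReal (by positivity)]

theorem normSq_re_im (z : ℂ) : ‖z‖ ^ 2 = z.re ^ 2 + z.im ^ 2 := by
  rw [← Complex.normSq_eq_norm_sq, Complex.normSq_apply]; ring

/-- larger discs touching the same core have larger lenses -/
theorem Len_strict {μ R : ℝ} (h0 : 0 < μ) (h1 : μ < 1) (hR : 1 < R) :
    Len 1 1 (1 + μ) < Len 1 R (R + μ) := by
  have key : ∀ (c : ℝ) (_ : 0 < c) (z : ℂ), z ∈ ball ((c + μ : ℝ) : ℂ) c ↔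
      (z.re - μ) ^ 2 + z.im ^ 2 < 2 * c * (z.re - μ) := by
    intro c hc z
    rw [mem_ball, dist_eq_norm, ← sq_lt_sq₀ (norm_nonneg _) hc.le, normSq_re_im]
    simp only [Complex.sub_re, Complex.sub_im, Complex.ofReal_re, Complex.ofReal_im, sub_zero]
    constructor <;> intro h <;> nlinarith
  have sub : ball (0:ℂ) 1 ∩ ball ((1 + μ : ℝ):ℂ) 1 ⊆ ball (0:ℂ) 1 ∩ ball ((R + μ : ℝ):ℂ) R := by
    rintro z ⟨hz1, hz2⟩
    refine ⟨hz1, ?_⟩
    rw [key 1 one_pos] at hz2
    rw [key R (by linarith)]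
    have : 0 ≤ z.re - μ := by nlinarith [sq_nonneg (z.re - μ), sq_nonneg z.im]
    nlinarith
  -- an open set in the difference
  set O : Set ℂ := {z : ℂ | z.re ^ 2 + z.im ^ 2 < 1 ∧
    (z.re - μ) ^ 2 + z.im ^ 2 < 2 * R * (z.re - μ) ∧ 2 * (z.re - μ) < (z.re - μ) ^ 2 + z.im ^ 2} with hO
  have hOopen : IsOpen O := by
    have f1 : Continuous fun z : ℂ => z.re ^ 2 + z.im ^ 2 := by fun_prop
    have f2 : Continuous fun z : ℂ => (z.re - μ) ^ 2 + z.im ^ 2 := by fun_prop
    have f3 : Continuous fun z : ℂ => 2 * R * (z.re - μ) := by fun_prop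
    have f4 : Continuous fun z : ℂ => 2 * (z.re - μ) := by fun_prop
    exact (isOpen_lt f1 continuous_const).inter ((isOpen_lt f2 f3).inter (isOpen_lt f4 f2))
  have hOne : O.Nonempty := by
    -- `re = μ + a`, `im^2 = a (1+R) - a^2`
    set a : ℝ := (1 - μ) / (2 * (1 + R)) * (1 - μ) / 2 with ha
    have ha0 : 0 < a := by
      rw [ha]; have : 0 < 1 - μ := by linarith
      positivity
    have ha1 : a * (1 + R) ≤ (1 - μ) ^ 2 / 4 := by
      rw [ha]; have : 0 < 1 + R := by linarith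
      apply le_of_eq; field_simp; ring
    have ha2 : a ≤ 1 / 4 := by nlinarith
    have hs : 0 ≤ a * (1 + R) - a ^ 2 := by nlinarith
    refine ⟨⟨μ + a, √(a * (1 + R) - a ^ 2)⟩, ?_, ?_, ?_⟩
    · simp only [Real.sq_sqrt hs]
      nlinarith
    · simp only [Real.sq_sqrt hs]
      nlinarith
    · simp only [Real.sq_sqrt hs]
      nlinarith
  have hOsub : O ⊆ ball (0:ℂ) 1 ∩ ball ((R + μ : ℝ):ℂ) R := by
    rintro z ⟨hz1, hz2, hz3⟩
    refine ⟨?_, ?_⟩
    · rw [mem_ball, dist_zero_right, ← sq_lt_sq₀ (norm_nonneg _) zero_le_one, normSq_re_im]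
      linarith
    · rw [key R (by linarith)]; exact hz2
  have hdisj : Disjoint (ball (0:ℂ) 1 ∩ ball ((1 + μ : ℝ):ℂ) 1) O := by
    rw [Set.disjoint_left]
    rintro z ⟨_, hz2⟩ ⟨_, _, hz3⟩
    rw [key 1 one_pos] at hz2
    linarith
  have hOpos : 0 < volume.real O := by
    rw [measureReal_def]
    apply ENNReal.toReal_pos (hOopen.measure_pos volume hOne).ne'
    exact ne_top_of_le_ne_top (lens_ne_top _ _ _ _) (measure_mono hOsub)
  have hle : volume.real ((ball (0:ℂ) 1 ∩ ball ((1 + μ : ℝ):ℂ) 1) ∪ O) ≤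
      volume.real (ball (0:ℂ) 1 ∩ ball ((R + μ : ℝ):ℂ) R) :=
    measureReal_mono (union_subset sub hOsub) (lens_ne_top _ _ _ _)
  rw [measureReal_union hdisj hOopen.measurableSet (lens_ne_top _ _ _ _)
    (ne_top_of_le_ne_top (lens_ne_top _ _ _ _) (measure_mono hOsub))] at hle
  unfold Len
  linarith

theorem Len_compare {μ r ρ : ℝ} (h0 : 0 < μ) (h1 : μ < 1) (hρ : 0 < ρ) (hr : ρ < r) :
    Len r r ((1 + μ) * r) * ρ ^ 2 < Len ρ r (r + μ * ρ) * r ^ 2 := by
  have hr0 : 0 < r := hρ.trans hr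
  have e1 := Len_scale hr0 1 1 (1 + μ)
  have e2 := Len_scale hρ 1 (r / ρ) (r / ρ + μ)
  have e3 : ρ * (r / ρ + μ) = r + μ * ρ := by field_simp
  have e4 : ρ * (r / ρ) = r := by field_simp
  rw [e3, e4, mul_one] at e2
  rw [mul_one, mul_comm r (1 + μ)] at e1
  rw [e1, e2]
  have := Len_strict h0 h1 ((one_lt_div hρ).2 hr)
  have h5 : 0 < r ^ 2 * ρ ^ 2 := by positivity
  nlinarith

theorem Len_nonneg (a b d : ℝ) : 0 ≤ Len a b d := measureReal_nonneg

end Pool.Agent.TH388.GM
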