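import Pool.Agent.TH388.GM.Basic
import Pool.Agent.TH388.GM.Lens

/-! Filling an open set with scaled copies of a periodic arrangement. -/

namespace Pool.Agent.TH388.GM
open MeasureTheory Metric Set

/-- generalized Minkowski arrangement of order `μ` of discs with centres `x i` and radii `ρ i` -/
def IsArr {ι : Type} (μ : ℝ) (x : ι → ℂ) (ρ : ι → ℝ) : Prop :=
  (∀ i, 0 < ρ i) ∧ ∀ i j, i ≠ j → max (ρ i + μ * ρ j) (ρ j + μ * ρ i) ≤ ‖x i - x j‖

/-- the lattice translates of the centres -/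
noncomputable def pX {ι : Type} (x : ι → ℂ) : (ℤ × ℤ) × ι → ℂ := fun q => x q.2 + lat q.1
def pR {ι : Type} (ρ : ι → ℝ) : (ℤ × ℤ) × ι → ℝ := fun q => ρ q.2

theorem finite_lat (M : ℝ) : {l : ℤ × ℤ | ‖lat l‖ ≤ M}.Finite := by
  have hsub : {l : ℤ × ℤ | ‖lat l‖ ≤ M} ⊆
      (Icc (-⌈2 * M⌉) ⌈2 * M⌉) ×ˢ (Icc (-⌈2 * M⌉) ⌈2 * M⌉) := by
    rintro ⟨m, n⟩ hl
    simp only [mem_ofPred_eq] at hl
    have h0 : 0 ≤ M := (norm_nonneg _).trans hl
    have h1 : ‖lat (m, n)‖ ^ 2 ≤ M ^ 2 := by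
      apply pow_le_pow_left₀ (norm_nonneg _) hl
    rw [norm_lat_sq] at h1
    push_cast at h1
    have h2 : (m:ℝ) ^ 2 ≤ (2 * M) ^ 2 := by nlinarith [sq_nonneg ((m:ℝ) + 2 * n)]
    have h3 : (n:ℝ) ^ 2 ≤ (2 * M) ^ 2 := by nlinarith [sq_nonneg (2 * (m:ℝ) + n)]
    have h4 := abs_le.1 (abs_le_of_sq_le_sq h2 (by positivity))
    have h5 := abs_le.1 (abs_le_of_sq_le_sq h3 (by positivity))
    have h6 := Int.le_ceil (2 * M)
    simp only [mem_prod, mem_Icc]
    refine ⟨⟨?_, ?_⟩, ?_, ?_⟩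
    · have : (-(⌈2 * M⌉ : ℝ)) ≤ m := by linarith
      exact_mod_cast this
    · have : (m : ℝ) ≤ ⌈2 * M⌉ := by linarith
      exact_mod_cast this
    · have : (-(⌈2 * M⌉ : ℝ)) ≤ n := by linarith
      exact_mod_cast this
    · have : (n : ℝ) ≤ ⌈2 * M⌉ := by linarith
      exact_mod_cast this
  exact ((Set.finite_Icc _ _).prod (Set.finite_Icc _ _)).subset hsub

theorem fill {μ : ℝ} {ι : Type} [Fintype ι] {x : ι → ℂ} {ρ : ι → ℝ}
    (hA : IsArr μ (pX x) (pR ρ)) {U : Set ℂ} (hU : IsOpen U) (hUf : volume U ≠ ⊤)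
    {ε : ℝ} (hε : 0 < ε) :
    ∃ (κ : Type) (_ : Fintype κ) (y : κ → ℂ) (τ : κ → ℝ), IsArr μ y τ ∧
      (∀ k, ball (y k) (τ k) ⊆ U) ∧
      (∑ i, Real.pi * ρ i ^ 2) / p * volume.real U - ε ≤ ∑ k, Real.pi * τ k ^ 2 := by
  classical
  have hp := p_pos
  set t := ∑ i, Real.pi * ρ i ^ 2 with ht
  have ht0 : 0 ≤ t := Finset.sum_nonneg fun i _ => by positivity
  have hρ : ∀ i, 0 < ρ i := fun i => hA.1 (0, i)
  set ε' := ε * p / (t + 1) with hε'
  have hε'0 : 0 < ε' := by positivity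
  obtain ⟨K, hKU, hK, hKvol⟩ := hU.measurableSet.exists_isCompact_lt_add hUf
    (ε := ENNReal.ofReal ε') (by simpa using hε'0)
  have hKf : volume K ≠ ⊤ := hK.measure_ne_top
  have hKreal : volume.real U ≤ volume.real K + ε' := by
    rw [measureReal_def, measureReal_def, ← ENNReal.toReal_ofReal hε'0.le,
      ← ENNReal.toReal_add hKf ENNReal.ofReal_ne_top]
    exact ENNReal.toReal_mono (ENNReal.add_ne_top.2 ⟨hKf, ENNReal.ofReal_ne_top⟩) hKvol.le
  obtain ⟨δ, hδ, hthick⟩ := hK.exists_thickening_subset_open hU hKU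
  set C := ∑ i, (‖x i‖ + ρ i) with hC
  have hC0 : 0 ≤ C := Finset.sum_nonneg fun i _ => add_nonneg (norm_nonneg _) (hρ i).le
  have hCi : ∀ i, ‖x i‖ + ρ i ≤ C := fun i =>
    Finset.single_le_sum (f := fun i => ‖x i‖ + ρ i)
      (fun i _ => add_nonneg (norm_nonneg _) (hρ i).le) (Finset.mem_univ i)
  set h := δ / (C + 3) with hh
  have hh0 : 0 < h := by positivity
  have hhC : h * (C + 2) < δ := by
    rw [hh, div_mul_eq_mul_div, div_lt_iff₀ (by positivity)]
    nlinarith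
  set I : Set (ℤ × ℤ) := {l | ∃ z ∈ K, h⁻¹ • z ∈ cell l} with hI
  obtain ⟨M, hM⟩ := hK.isBounded.subset_closedBall 0
  have hIfin : I.Finite := by
    refine (finite_lat (h⁻¹ * M + 2)).subset ?_
    rintro l ⟨z, hz, hzl⟩
    have h1 := dist_cell hzl
    have h2 : ‖z‖ ≤ M := by simpa using hM hz
    have h3 : ‖h⁻¹ • z‖ ≤ h⁻¹ * M := by
      rw [norm_smul, Real.norm_of_nonneg (by positivity)]
      exact mul_le_mul_of_nonneg_left h2 (by positivity)
    have h4 : ‖lat l‖ ≤ ‖h⁻¹ • z‖ + ‖h⁻¹ • z - lat l‖ := by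
      have := norm_sub_le (h⁻¹ • z) (h⁻¹ • z - lat l)
      rwa [sub_sub_cancel] at this
    simp only [mem_ofPred_eq]
    linarith
  set IF := hIfin.toFinset with hIF
  have hmem : ∀ l, l ∈ IF ↔ ∃ z ∈ K, h⁻¹ • z ∈ cell l := fun l => by
    rw [hIF, Set.Finite.mem_toFinset]; rfl
  refine ⟨{l // l ∈ IF} × ι, inferInstance, fun q => h • (x q.2 + lat q.1.1), fun q => h * ρ q.2,
    ⟨fun q => mul_pos hh0 (hρ _), ?_⟩, ?_, ?_⟩
  · rintro ⟨⟨l, hl⟩, i⟩ ⟨⟨l', hl'⟩, i'⟩ hne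
    have hne' : ((l, i) : (ℤ × ℤ) × ι) ≠ (l', i') := by
      intro he
      apply hne
      simp only [Prod.mk.injEq] at he
      obtain ⟨rfl, rfl⟩ := he
      rfl
    have := hA.2 (l, i) (l', i') hne'
    simp only [pX, pR] at this
    simp only
    rw [← smul_sub, norm_smul, Real.norm_of_nonneg hh0.le]
    have e1 : max (h * ρ i + μ * (h * ρ i')) (h * ρ i' + μ * (h * ρ i)) =
        h * max (ρ i + μ * ρ i') (ρ i' + μ * ρ i) := by
      rw [mul_max_of_nonneg _ _ hh0.le]; congr 1 <;> ring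
    rw [e1]
    exact mul_le_mul_of_nonneg_left this hh0.le
  · rintro ⟨⟨l, hl⟩, i⟩ w hw
    simp only at hw
    obtain ⟨z, hz, hzl⟩ := (hmem l).1 hl
    apply hthick
    rw [mem_thickening_iff]
    refine ⟨z, hz, ?_⟩
    rw [mem_ball, dist_eq_norm] at hw
    rw [dist_eq_norm]
    have h1 := dist_cell hzl
    have h2 : ‖h • lat l - z‖ ≤ h * 2 := by
      have : h • lat l - z = -(h • (h⁻¹ • z - lat l)) := by
        rw [smul_sub, smul_smul, mul_inv_cancel₀ hh0.ne', one_smul]; ring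
      rw [this, norm_neg, norm_smul, Real.norm_of_nonneg hh0.le]
      exact mul_le_mul_of_nonneg_left h1 hh0.le
    have h3 : ‖h • x i‖ = h * ‖x i‖ := by rw [norm_smul, Real.norm_of_nonneg hh0.le]
    have h4 : w - z = (w - h • (x i + lat l)) + h • x i + (h • lat l - z) := by
      rw [smul_add]; ring
    calc ‖w - z‖ ≤ ‖w - h • (x i + lat l)‖ + ‖h • x i‖ + ‖h • lat l - z‖ := by
          rw [h4]; exact norm_add₃_le
      _ < h * ρ i + h * ‖x i‖ + h * 2 := by rw [h3]; linarith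
      _ ≤ h * (C + 2) := by nlinarith [hCi i]
      _ < δ := hhC
  · -- areas
    have e1 : ∑ q : {l // l ∈ IF} × ι, Real.pi * (h * ρ q.2) ^ 2 = IF.card * h ^ 2 * t := by
      rw [Fintype.sum_prod_type]
      simp only [Finset.sum_const, Finset.card_univ, Fintype.card_coe, nsmul_eq_mul]
      rw [ht, mul_assoc]
      congr 1
      rw [Finset.mul_sum]
      exact Finset.sum_congr rfl fun i _ => by ring
    simp only
    rw [e1]
    have e2 : volume.real K ≤ IF.card * (h ^ 2 * p) := by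
      have hsub : K ⊆ ⋃ l ∈ IF, (fun z : ℂ => h⁻¹ • z) ⁻¹' cell l := by
        intro z hz
        rw [mem_iUnion₂]
        exact ⟨fl (h⁻¹ • z), (hmem _).2 ⟨z, hz, rfl⟩, rfl⟩
      have hf : ∀ l, volume ((fun z : ℂ => h⁻¹ • z) ⁻¹' cell l) ≠ ⊤ := by
        intro l
        rw [Measure.addHaar_preimage_smul volume (inv_ne_zero hh0.ne'), volume_cell]
        exact ENNReal.mul_ne_top ENNReal.ofReal_ne_top volume_cell_zero_ne_top
      have hfin : volume (⋃ l ∈ IF, (fun z : ℂ => h⁻¹ • z) ⁻¹' cell l) ≠ ⊤ := by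
        refine ne_top_of_le_ne_top ?_ (measure_biUnion_finset_le _ _)
        exact ENNReal.sum_ne_top.2 fun l _ => hf l
      have h1 : volume.real K ≤ volume.real (⋃ l ∈ IF, (fun z : ℂ => h⁻¹ • z) ⁻¹' cell l) :=
        measureReal_mono hsub hfin
      refine h1.trans ((measureReal_biUnion_finset_le _ _).trans ?_)
      simp only [volume_cell_scaled hh0, Finset.sum_const, nsmul_eq_mul]
      exact le_rfl
    have e3 : t / p * volume.real K ≤ IF.card * h ^ 2 * t := by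
      rw [div_mul_eq_mul_div, div_le_iff₀ hp]
      calc t * volume.real K ≤ t * (IF.card * (h ^ 2 * p)) := mul_le_mul_of_nonneg_left e2 ht0
        _ = IF.card * h ^ 2 * t * p := by ring
    have e4 : t / p * ε' ≤ ε := by
      rw [hε', div_mul_div_comm, div_le_iff₀ (by positivity)]
      nlinarith [mul_pos hε hp]
    have e5 : t / p * volume.real U ≤ t / p * volume.real K + t / p * ε' := by
      rw [← mul_add]
      exact mul_le_mul_of_nonneg_left hKreal (by positivity)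
    linarith

end Pool.Agent.TH388.GM
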