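import Pool.Agent.TH388.GM.Fill

/-! The hexagonal arrangement: overlaps of its discs. -/

namespace Pool.Agent.TH388.GM
open MeasureTheory Metric Set

/-- radius of the discs of the hexagonal arrangement -/
noncomputable def rr (μ : ℝ) : ℝ := 1 / (1 + μ)
/-- radius of the small discs -/
noncomputable def rs (μ : ℝ) : ℝ := (1 / √3 - rr μ) / μ

structure Ad (μ : ℝ) : Prop where
  lo : √3 - 1 < μ
  hi : μ < 1

theorem s3lt : √3 < 2 := by
  rw [Real.sqrt_lt' (by norm_num)]; norm_num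
theorem s3gt : 3 / 2 < √3 := by
  rw [Real.lt_sqrt (by norm_num)]; norm_num

theorem inv_s3 : (1 / √3) ^ 2 = 1 / 3 := by
  rw [div_pow, Real.sq_sqrt (by norm_num)]; norm_num

variable {μ : ℝ} (h : Ad μ)
include h

theorem mu_pos : 0 < μ := by
  have := h.lo; have := s3gt; linarith

theorem rr_eq : (1 + μ) * rr μ = 1 := by
  have := mu_pos h
  unfold rr; field_simp

theorem rr_pos : 0 < rr μ := by
  have := mu_pos h
  unfold rr; positivity

theorem half_lt_rr : 1 / 2 < rr μ := by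
  have h1 := rr_eq h; have h2 := rr_pos h; have h3 := h.hi
  nlinarith

theorem rr_lt : rr μ < 1 / √3 := by
  have := mu_pos h; have h1 := h.lo
  unfold rr
  apply one_div_lt_one_div_of_lt s3pos
  linarith

theorem rr_sq_lt : rr μ ^ 2 < 1 / 3 := by
  rw [← inv_s3]
  exact pow_lt_pow_left₀ (rr_lt h) (rr_pos h).le (by norm_num)

theorem rs_pos : 0 < rs μ := by
  unfold rs
  exact div_pos (sub_pos.2 (rr_lt h)) (mu_pos h)

theorem rs_eq : rr μ + μ * rs μ = 1 / √3 := by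
  have := mu_pos h
  unfold rs; field_simp; ring

omit h in
/-- `1/√3 < 3/5` -/
theorem inv_s3_lt : 1 / √3 < 3 / 5 := by
  have h2 : (1 / √3) ^ 2 < (3 / 5) ^ 2 := by rw [inv_s3]; norm_num
  exact lt_of_pow_lt_pow_left₀ 2 (by norm_num) h2

omit h in
theorem inv_s3_gt : 4 / 7 < 1 / √3 := by
  have h2 : (4 / 7 : ℝ) ^ 2 < (1 / √3) ^ 2 := by rw [inv_s3]; norm_num
  have := s3pos
  exact lt_of_pow_lt_pow_left₀ 2 (by positivity) h2

/-- the small radius is less than `1/5`: `μ ρ = a - r < 3/5 - 1/2`, `μ > 1/2` -/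
theorem rs_lt : rs μ < 1 / 5 := by
  have h1 := rs_eq h; have h2 := inv_s3_lt; have h3 := half_lt_rr h
  have h4 := h.lo; have h5 := s3gt; have h6 := rs_pos h
  nlinarith

theorem rs_lt_rr : rs μ < rr μ := by
  have := rs_lt h; have := half_lt_rr h; linarith

/-- `ρ^2 - ρ a + a^2 ≥ r^2`, `a = 1/√3` -/
theorem key_ineq : rr μ ^ 2 ≤ rs μ ^ 2 - rs μ * (1 / √3) + 1 / 3 := by
  have h1 := rs_eq h; have h2 := inv_s3_lt; have h3 := half_lt_rr h
  have h4 := rr_eq h; have h5 := inv_s3; have h6 := rs_pos h; have h7 := rr_lt h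
  have h8 := mu_pos h; have h9 := inv_s3_gt
  set a := 1 / √3
  set r := rr μ
  set s := rs μ
  -- μ = 1/r - 1, s = (a-r) r/(1-r)
  have e1 : (1 - r) * s = (a - r) * r := by
    have : μ * r = 1 - r := by linarith
    calc (1 - r) * s = (μ * r) * s := by rw [this]
      _ = (μ * s) * r := by ring
      _ = (a - r) * r := by congr 1; linarith
  -- claim: (a-r)(a+r) - s(a - s) ≥ 0
  have e2 : (1 - r) * ((a - r) * (a + r) - s * a) = (a - r) * ((a + r) * (1 - r) - r * a) := by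
    have : (1 - r) * (s * a) = (a - r) * r * a := by rw [← mul_assoc, e1]
    linarith
  have e3 : 0 ≤ (a + r) * (1 - r) - r * a := by nlinarith
  have e4 : 0 ≤ (1 - r) * ((a - r) * (a + r) - s * a) := by
    rw [e2]; exact mul_nonneg (by linarith) e3
  have e5 : 0 ≤ (a - r) * (a + r) - s * a := by
    by_contra hc
    push Not at hc
    have : (1 - r) * ((a - r) * (a + r) - s * a) < 0 := mul_neg_of_pos_of_neg (by linarith) hc
    linarith
  nlinarith [sq_nonneg s]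

omit h in
/-- three points at pairwise distance at least one have no common point at distance less than
`1/√3` -/
theorem no_three {a b c z : ℂ} (hab : 1 ≤ ‖a - b‖) (hbc : 1 ≤ ‖b - c‖) (hca : 1 ≤ ‖c - a‖)
    {r : ℝ} (hr : r ^ 2 < 1 / 3) (ha : ‖z - a‖ < r) (hb : ‖z - b‖ < r) (hc : ‖z - c‖ < r) :
    False := by
  have sq : ∀ w : ℂ, ‖w‖ < r → ‖w‖ ^ 2 < 1 / 3 := fun w hw =>
    (pow_lt_pow_left₀ hw (norm_nonneg _) (by norm_num)).trans hr
  have h1 := sq _ ha
  have h2 := sq _ hb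
  have h3 := sq _ hc
  have sq1 : ∀ w : ℂ, 1 ≤ ‖w‖ → 1 ≤ ‖w‖ ^ 2 := fun w hw => by nlinarith
  have h4 := sq1 _ hab
  have h5 := sq1 _ hbc
  have h6 := sq1 _ hca
  rw [normSq_re_im] at h1 h2 h3 h4 h5 h6
  simp only [Complex.sub_re, Complex.sub_im] at h1 h2 h3 h4 h5 h6
  nlinarith [sq_nonneg (3 * z.re - a.re - b.re - c.re), sq_nonneg (3 * z.im - a.im - b.im - c.im)]

/-- the discs of the hexagonal arrangement -/
def B (μ : ℝ) (l : ℤ × ℤ) : Set ℂ := ball (lat l) (rr μ)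

omit h in
theorem norm_lat_sub {l l' : ℤ × ℤ} (hl : l ≠ l') : 1 ≤ ‖lat l - lat l'‖ := by
  rw [← lat_sub]; exact one_le_norm_lat (sub_ne_zero.2 hl)

theorem B_three {l l' l'' : ℤ × ℤ} (h1 : l ≠ l') (h2 : l' ≠ l'') (h3 : l'' ≠ l) {z : ℂ}
    (hz1 : z ∈ B μ l) (hz2 : z ∈ B μ l') (hz3 : z ∈ B μ l'') : False := by
  unfold B at *
  rw [mem_ball, dist_eq_norm] at *
  exact no_three (norm_lat_sub h1) (norm_lat_sub h2) (norm_lat_sub h3) (rr_sq_lt h) hz1 hz2 hz3

/-- the negative neighbours of the origin -/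
def Neg (d : ℤ × ℤ) : Prop := d = (-1, 0) ∨ d = (0, -1) ∨ d = (-1, 1)

omit h in
theorem form_one {l : ℤ × ℤ} (h0 : l ≠ 0) (h1 : l.1 ^ 2 + l.1 * l.2 + l.2 ^ 2 < 2) :
    Neg l ∨ Neg (-l) := by
  obtain ⟨m, n⟩ := l
  simp only at h1
  have hm : -1 ≤ m ∧ m ≤ 1 := by
    constructor <;> nlinarith [sq_nonneg (m + 2 * n)]
  have hn : -1 ≤ n ∧ n ≤ 1 := by
    constructor <;> nlinarith [sq_nonneg (2 * m + n)]
  unfold Neg
  obtain ⟨hm1, hm2⟩ := hm
  obtain ⟨hn1, hn2⟩ := hn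
  interval_cases m <;> interval_cases n <;> simp_all

theorem B_two {l l' : ℤ × ℤ} (h1 : l ≠ l') {z : ℂ} (hz1 : z ∈ B μ l) (hz2 : z ∈ B μ l') :
    Neg (l - l') ∨ Neg (l' - l) := by
  unfold B at *
  rw [mem_ball, dist_eq_norm] at *
  have hn : ‖lat (l - l')‖ < 2 * rr μ := by
    have e : lat (l - l') = (z - lat l') - (z - lat l) := by rw [lat_sub]; ring
    rw [e]
    have := norm_sub_le (z - lat l') (z - lat l)
    linarith
  have h2 : ‖lat (l - l')‖ ^ 2 < 2 := by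
    have e1 : ‖lat (l - l')‖ ^ 2 < (2 * rr μ) ^ 2 := pow_lt_pow_left₀ hn (norm_nonneg _) (by norm_num)
    have e2 := rr_sq_lt h
    nlinarith
  rw [norm_lat_sq] at h2
  have h3 : (l - l').1 ^ 2 + (l - l').1 * (l - l').2 + (l - l').2 ^ 2 < 2 := by exact_mod_cast h2
  have := form_one (sub_ne_zero.2 h1) h3
  rwa [neg_sub] at this

/-- the part of the disc at the origin owned by the origin -/
def O0 (μ : ℝ) : Set ℂ := B μ 0 \ (B μ (-1, 0) ∪ B μ (0, -1) ∪ B μ (-1, 1))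

omit h in
theorem measurableSet_O0 : MeasurableSet (O0 μ) :=
  measurableSet_ball.diff ((measurableSet_ball.union measurableSet_ball).union measurableSet_ball)

omit h in
theorem mem_B_sub {z : ℂ} {l m : ℤ × ℤ} : z - lat l ∈ B μ m ↔ z ∈ B μ (m + l) := by
  unfold B
  rw [mem_ball, mem_ball, dist_eq_norm, dist_eq_norm, lat_add, sub_sub, add_comm]

/-- the part of the disc at `lat l` owned by it -/
def Ow (μ : ℝ) (l : ℤ × ℤ) : Set ℂ := (fun z => z - lat l) ⁻¹' O0 μ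

omit h in
theorem mem_Ow {z : ℂ} {l : ℤ × ℤ} : z ∈ Ow μ l ↔ z ∈ B μ l ∧ ∀ d, Neg d → z ∉ B μ (d + l) := by
  unfold Ow O0
  simp only [mem_preimage, mem_sdiff, mem_union, mem_B_sub, zero_add]
  constructor
  · rintro ⟨h1, h2⟩
    refine ⟨h1, ?_⟩
    rintro d (rfl | rfl | rfl) hz
    · exact h2 (Or.inl (Or.inl hz))
    · exact h2 (Or.inl (Or.inr hz))
    · exact h2 (Or.inr hz)
  · rintro ⟨h1, h2⟩
    refine ⟨h1, ?_⟩
    rintro ((hz | hz) | hz)
    · exact h2 _ (Or.inl rfl) hz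
    · exact h2 _ (Or.inr (Or.inl rfl)) hz
    · exact h2 _ (Or.inr (Or.inr rfl)) hz

theorem Ow_disjoint {l l' : ℤ × ℤ} (hl : l ≠ l') : Disjoint (Ow μ l) (Ow μ l') := by
  rw [Set.disjoint_left]
  intro z h1 h2
  rw [mem_Ow] at h1 h2
  rcases B_two h hl h1.1 h2.1 with hn | hn
  · exact h2.2 _ hn (by rw [sub_add_cancel]; exact h1.1)
  · exact h1.2 _ hn (by rw [sub_add_cancel]; exact h2.1)

omit h in
theorem Neg.ne_zero {d : ℤ × ℤ} (hd : Neg d) : d ≠ 0 := by
  rcases hd with rfl | rfl | rfl <;> decide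

omit h in
theorem Neg.add_ne_zero {d d' : ℤ × ℤ} (hd : Neg d) (hd' : Neg d') : d + d' ≠ 0 := by
  rcases hd with rfl | rfl | rfl <;> rcases hd' with rfl | rfl | rfl <;> decide

theorem iUnion_B : ⋃ l, B μ l = ⋃ l, Ow μ l := by
  ext z
  simp only [mem_iUnion]
  constructor
  · rintro ⟨l, hz⟩
    by_contra hc
    push Not at hc
    have h1 := hc l
    rw [mem_Ow] at h1
    push Not at h1
    obtain ⟨d, hd, hzd⟩ := h1 hz
    have h2 := hc (d + l)
    rw [mem_Ow] at h2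
    push Not at h2
    obtain ⟨d', hd', hzd'⟩ := h2 hzd
    refine B_three h (l := l) (l' := d + l) (l'' := d' + (d + l)) ?_ ?_ ?_ hz hzd hzd'
    · intro e; exact hd.ne_zero (by simpa using e.symm)
    · intro e; exact hd'.ne_zero (by simpa using e.symm)
    · intro e
      have : d' + d = 0 := by
        have e2 : (d' + d) + l = l := by rw [add_assoc]; exact e
        simpa using e2
      exact hd'.add_ne_zero hd this
  · rintro ⟨l, hz⟩
    exact ⟨l, (mem_Ow.1 hz).1⟩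

/-- area of the owned part: the union area per cell -/
noncomputable def w (μ : ℝ) : ℝ := volume.real (O0 μ)

omit h in
theorem O0_ne_top : volume (O0 μ) ≠ ⊤ :=
  ne_top_of_le_ne_top (ball_ne_top _ _) (measure_mono sdiff_subset)

theorem w_ge : Real.pi * rr μ ^ 2 - 3 * Len (rr μ) (rr μ) 1 ≤ w μ := by
  have hB : volume.real (B μ 0) = Real.pi * rr μ ^ 2 := vol_ball _ (rr_pos h).le
  have hd : ∀ d, Neg d → volume.real (B μ 0 ∩ B μ d) = Len (rr μ) (rr μ) 1 := by
    intro d hd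
    unfold B
    apply lens_eq
    rw [lat_zero, sub_zero]
    have : ‖lat d‖ ^ 2 = 1 ^ 2 := by
      rw [norm_lat_sq]
      rcases hd with rfl | rfl | rfl <;> norm_num
    exact (sq_eq_sq₀ (norm_nonneg _) zero_le_one).1 this
  have hsub : B μ 0 ⊆ O0 μ ∪ ((B μ 0 ∩ B μ (-1, 0)) ∪ ((B μ 0 ∩ B μ (0, -1)) ∪
      (B μ 0 ∩ B μ (-1, 1)))) := by
    intro z hz
    by_cases h1 : z ∈ B μ (-1, 0)
    · exact Or.inr (Or.inl ⟨hz, h1⟩)
    by_cases h2 : z ∈ B μ (0, -1)
    · exact Or.inr (Or.inr (Or.inl ⟨hz, h2⟩))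
    by_cases h3 : z ∈ B μ (-1, 1)
    · exact Or.inr (Or.inr (Or.inr ⟨hz, h3⟩))
    refine Or.inl ⟨hz, ?_⟩
    rintro ((g | g) | g)
    · exact h1 g
    · exact h2 g
    · exact h3 g
  have hfin : ∀ l, volume (B μ 0 ∩ B μ l) ≠ ⊤ := fun l =>
    ne_top_of_le_ne_top (ball_ne_top _ _) (measure_mono inter_subset_left)
  have hle := measureReal_mono (μ := volume) hsub (by
    refine ne_top_of_le_ne_top (ball_ne_top (lat 0) (rr μ)) (measure_mono ?_)
    rintro z (g | g | g | g)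
    · exact g.1
    · exact g.1
    · exact g.1
    · exact g.1)
  have h1 := measureReal_union_le (μ := volume) (O0 μ) ((B μ 0 ∩ B μ (-1, 0)) ∪ ((B μ 0 ∩ B μ (0, -1)) ∪
      (B μ 0 ∩ B μ (-1, 1))))
  have h2 := measureReal_union_le (μ := volume) (B μ 0 ∩ B μ (-1, 0)) ((B μ 0 ∩ B μ (0, -1)) ∪
      (B μ 0 ∩ B μ (-1, 1)))
  have h3 := measureReal_union_le (μ := volume) (B μ 0 ∩ B μ (0, -1)) (B μ 0 ∩ B μ (-1, 1))
  rw [hd _ (Or.inl rfl)] at h2
  rw [hd _ (Or.inr (Or.inl rfl)), hd _ (Or.inr (Or.inr rfl))] at h3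
  rw [hB] at hle
  unfold w
  linarith

omit h in
theorem vol_Ow (l : ℤ × ℤ) : volume (Ow μ l) = volume (O0 μ) := by
  have : Ow μ l = (fun z => z + (- lat l)) ⁻¹' O0 μ := by
    ext z; unfold Ow; simp only [mem_preimage, sub_eq_add_neg]
  rw [this, measure_preimage_add_right]

omit h in
theorem measurableSet_Ow (l : ℤ × ℤ) : MeasurableSet (Ow μ l) :=
  (measurable_id.sub_const _) measurableSet_O0

/-- the union of finitely many (or all) discs of the hexagonal arrangement is large -/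
theorem union_ge (J : Set (ℤ × ℤ)) : ∑' _ : J, volume (O0 μ) ≤ volume (⋃ l : J, B μ l) := by
  have h1 : ∑' l : J, volume (Ow μ l) = volume (⋃ l : J, Ow μ l) := by
    rw [measure_iUnion]
    · rintro ⟨l, _⟩ ⟨l', _⟩ hne
      exact Ow_disjoint h (fun e => hne (Subtype.ext e))
    · intro l; exact measurableSet_Ow l
  simp_rw [vol_Ow] at h1
  rw [h1]
  apply measure_mono
  apply iUnion_mono
  intro l z hz
  exact (mem_Ow.1 hz).1

/-- in the cell -/
theorem cell_B_le : volume.real (cell 0 ∩ ⋃ l, B μ l) ≤ w μ := by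
  rw [iUnion_B h]
  unfold w
  rw [measureReal_def, measureReal_def]
  exact ENNReal.toReal_mono O0_ne_top (volume_periodized_le measurableSet_O0)

end Pool.Agent.TH388.GM
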