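import Pool.Agent.TH388.GM.Hex

/-! The small discs in the holes of the hexagonal arrangement, and the remaining hole. -/

namespace Pool.Agent.TH388.GM
open MeasureTheory Metric Set

/-- the point with both lattice coordinates `t` -/
noncomputable def cc (t : ℝ) : ℂ := ⟨t + t / 2, t * (√3 / 2)⟩

theorem al_cc (t : ℝ) : al (cc t) = t := by
  have := s3pos
  simp [al, cc]; field_simp; ring
theorem be_cc (t : ℝ) : be (cc t) = t := by
  have := s3pos
  simp [be, cc]; field_simp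

/-- the two hole centres in the cell -/
def IsC (t : ℝ) : Prop := t = 1 / 3 ∨ t = 2 / 3

/-- small discs -/
def S (μ t : ℝ) : Set ℂ := ball (cc t) (rs μ)

theorem norm_cc_sub (t : ℝ) (l : ℤ × ℤ) :
    ‖cc t - lat l‖ ^ 2 = (t - l.1) ^ 2 + (t - l.1) * (t - l.2) + (t - l.2) ^ 2 := by
  rw [normSq_eq, al_sub, be_sub, al_lat, be_lat, al_cc, be_cc]

/-- distance of the hole centres from lattice points -/
theorem cc_sub_ge {t : ℝ} (ht : IsC t) (l : ℤ × ℤ) : 1 / √3 ≤ ‖cc t - lat l‖ := by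
  have h1 : (1 / √3) ^ 2 ≤ ‖cc t - lat l‖ ^ 2 := by
    rw [inv_s3, norm_cc_sub]
    obtain ⟨m, n⟩ := l
    simp only
    rcases ht with rfl | rfl
    · have h2 : 3 ≤ (1 - 3 * m) ^ 2 + (1 - 3 * m) * (1 - 3 * n) + (1 - 3 * n) ^ 2 := by
        have h3 : (1 - 3 * m) ^ 2 + (1 - 3 * m) * (1 - 3 * n) + (1 - 3 * n) ^ 2 =
          3 * (1 - 3 * m - 3 * n + 3 * m ^ 2 + 3 * n ^ 2 + 3 * m * n) := by ring
        have h4 : 0 < (1 - 3 * m) ^ 2 + (1 - 3 * m) * (1 - 3 * n) + (1 - 3 * n) ^ 2 := by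
          have : 0 < (1 - 3 * m) ^ 2 := by
            have : 1 - 3 * m ≠ 0 := by omega
            positivity
          nlinarith [sq_nonneg ((1 - 3 * m) + 2 * (1 - 3 * n))]
        omega
      have h5 : (3 : ℝ) ≤ (1 - 3 * m) ^ 2 + (1 - 3 * m) * (1 - 3 * n) + (1 - 3 * n) ^ 2 := by
        exact_mod_cast h2
      nlinarith
    · have h2 : 3 ≤ (2 - 3 * m) ^ 2 + (2 - 3 * m) * (2 - 3 * n) + (2 - 3 * n) ^ 2 := by
        have h3 : (2 - 3 * m) ^ 2 + (2 - 3 * m) * (2 - 3 * n) + (2 - 3 * n) ^ 2 =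
          3 * (4 - 6 * m - 6 * n + 3 * m ^ 2 + 3 * n ^ 2 + 3 * m * n) := by ring
        have h4 : 0 < (2 - 3 * m) ^ 2 + (2 - 3 * m) * (2 - 3 * n) + (2 - 3 * n) ^ 2 := by
          have : 0 < (2 - 3 * m) ^ 2 := by
            have : 2 - 3 * m ≠ 0 := by omega
            positivity
          nlinarith [sq_nonneg ((2 - 3 * m) + 2 * (2 - 3 * n))]
        omega
      have h5 : (3 : ℝ) ≤ (2 - 3 * m) ^ 2 + (2 - 3 * m) * (2 - 3 * n) + (2 - 3 * n) ^ 2 := by
        exact_mod_cast h2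
      nlinarith
  have := s3pos
  exact (pow_le_pow_iff_left₀ (by positivity) (norm_nonneg _) (by norm_num)).1 h1

/-- the three nearest lattice points of a hole centre -/
def Near (t : ℝ) (l : ℤ × ℤ) : Prop :=
  (t = 1 / 3 ∧ (l = (0, 0) ∨ l = (1, 0) ∨ l = (0, 1))) ∨
  (t = 2 / 3 ∧ (l = (1, 0) ∨ l = (0, 1) ∨ l = (1, 1)))

theorem Near.isC {t : ℝ} {l : ℤ × ℤ} (hn : Near t l) : IsC t := by
  rcases hn with ⟨h, _⟩ | ⟨h, _⟩
  · exact Or.inl h
  · exact Or.inr h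

theorem near_dist {t : ℝ} {l : ℤ × ℤ} (hn : Near t l) : ‖lat l - cc t‖ = 1 / √3 := by
  have := s3pos
  rw [norm_sub_rev]
  refine (sq_eq_sq₀ (norm_nonneg _) (by positivity)).1 ?_
  rw [inv_s3, norm_cc_sub]
  rcases hn with ⟨rfl, rfl | rfl | rfl⟩ | ⟨rfl, rfl | rfl | rfl⟩ <;> norm_num

/-- small discs meet only one big disc at a time -/
theorem S_two {μ : ℝ} (h : Ad μ) {t : ℝ} {l l' : ℤ × ℤ} (hn : Near t l) (hn' : Near t l')
    (hl : l ≠ l') {z : ℂ} (hz : z ∈ S μ t) (hz1 : z ∈ B μ l) (hz2 : z ∈ B μ l') : False := by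
  unfold S at hz
  unfold B at hz1 hz2
  rw [mem_ball, dist_eq_norm] at hz hz1 hz2
  -- coordinates centred at `cc t`
  set a := z - cc t with ha
  have e1 : z - lat l = a - (lat l - cc t) := by rw [ha]; ring
  have e2 : z - lat l' = a - (lat l' - cc t) := by rw [ha]; ring
  rw [e1] at hz1
  rw [e2] at hz2
  set b := lat l - cc t with hb
  set c := lat l' - cc t with hc
  have hb1 : ‖b‖ ^ 2 = 1 / 3 := by rw [hb, near_dist hn, inv_s3]
  have hc1 : ‖c‖ ^ 2 = 1 / 3 := by rw [hc, near_dist hn', inv_s3]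
  have hbc : 1 ≤ ‖b - c‖ ^ 2 := by
    have : b - c = lat l - lat l' := by rw [hb, hc]; ring
    rw [this]
    have := norm_lat_sub hl
    nlinarith
  have hr := rr_pos h
  have h1 : ‖a - b‖ ^ 2 < rr μ ^ 2 := pow_lt_pow_left₀ hz1 (norm_nonneg _) (by norm_num)
  have h2 : ‖a - c‖ ^ 2 < rr μ ^ 2 := pow_lt_pow_left₀ hz2 (norm_nonneg _) (by norm_num)
  have hna : ‖a‖ < rs μ := hz
  have hkey := key_ineq h
  have hrs := rs_lt h
  have hia := inv_s3_gt
  have hai := inv_s3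
  -- |b + c|^2 ≤ 1/3
  have hbc2 : ‖b + c‖ ^ 2 ≤ 1 / 3 := by
    rw [normSq_re_im] at *
    simp only [Complex.sub_re, Complex.sub_im, Complex.add_re, Complex.add_im] at *
    nlinarith
  have hbc3 : ‖b + c‖ ≤ 1 / √3 := by
    have := s3pos
    refine (pow_le_pow_iff_left₀ (norm_nonneg _) (by positivity) (n := 2) (by norm_num)).1 ?_
    rw [inv_s3]; exact hbc2
  -- inner product
  have hin : a.re * (b + c).re + a.im * (b + c).im ≤ ‖a‖ * ‖b + c‖ := by
    have hsq : (a.re * (b + c).re + a.im * (b + c).im) ^ 2 ≤ (‖a‖ * ‖b + c‖) ^ 2 := by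
      rw [mul_pow, normSq_re_im, normSq_re_im]
      nlinarith [sq_nonneg (a.re * (b + c).im - a.im * (b + c).re)]
    exact le_of_abs_le (abs_le_of_sq_le_sq hsq (by positivity))
  have hin2 : a.re * (b + c).re + a.im * (b + c).im ≤ ‖a‖ * (1 / √3) :=
    hin.trans (mul_le_mul_of_nonneg_left hbc3 (norm_nonneg _))
  have hsum : ‖a - b‖ ^ 2 + ‖a - c‖ ^ 2 = 2 * ‖a‖ ^ 2 -
      2 * (a.re * (b + c).re + a.im * (b + c).im) + ‖b‖ ^ 2 + ‖c‖ ^ 2 := by
    rw [normSq_re_im, normSq_re_im, normSq_re_im, normSq_re_im, normSq_re_im]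
    simp only [Complex.sub_re, Complex.sub_im, Complex.add_re, Complex.add_im]
    ring
  have hna0 := norm_nonneg a
  -- |a|^2 - |a| k + 1/3 < r^2 ≤ s^2 - s k + 1/3
  have hfin : ‖a‖ ^ 2 - ‖a‖ * (1 / √3) + 1 / 3 < rr μ ^ 2 := by nlinarith
  nlinarith [mul_pos (sub_pos.2 hna) (show 0 < 1 / √3 - rs μ - ‖a‖ by linarith)]

theorem S_ne_top (μ t : ℝ) : volume (S μ t) ≠ ⊤ := ball_ne_top _ _

theorem S_near_vol {μ : ℝ} {t : ℝ} {l : ℤ × ℤ} (hn : Near t l) :
    volume.real (S μ t ∩ B μ l) = Len (rs μ) (rr μ) (1 / √3) := lens_eq _ _ (near_dist hn) _ _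

/-- the part of a small disc outside the big discs -/
theorem S_diff_le {μ : ℝ} (h : Ad μ) {t : ℝ} (ht : IsC t) :
    volume.real (S μ t \ ⋃ l, B μ l) ≤
      Real.pi * rs μ ^ 2 - 3 * Len (rs μ) (rr μ) (1 / √3) := by
  obtain ⟨l1, l2, l3, h1, h2, h3, h12, h13, h23⟩ : ∃ l1 l2 l3 : ℤ × ℤ, Near t l1 ∧ Near t l2 ∧
      Near t l3 ∧ l1 ≠ l2 ∧ l1 ≠ l3 ∧ l2 ≠ l3 := by
    rcases ht with rfl | rfl
    · exact ⟨(0, 0), (1, 0), (0, 1), Or.inl ⟨rfl, by simp⟩, Or.inl ⟨rfl, by simp⟩,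
        Or.inl ⟨rfl, by simp⟩, by decide, by decide, by decide⟩
    · exact ⟨(1, 0), (0, 1), (1, 1), Or.inr ⟨rfl, by simp⟩, Or.inr ⟨rfl, by simp⟩,
        Or.inr ⟨rfl, by simp⟩, by decide, by decide, by decide⟩
  have mB : ∀ l, MeasurableSet (S μ t ∩ B μ l) := fun l => measurableSet_ball.inter measurableSet_ball
  have fB : ∀ l, volume (S μ t ∩ B μ l) ≠ ⊤ := fun l =>
    ne_top_of_le_ne_top (S_ne_top μ t) (measure_mono inter_subset_left)
  have e1 : volume.real ((S μ t ∩ B μ l1) ∪ ((S μ t ∩ B μ l2) ∪ (S μ t ∩ B μ l3))) =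
      3 * Len (rs μ) (rr μ) (1 / √3) := by
    rw [measureReal_union _ ((mB _).union (mB _)) (fB _)
      (ne_top_of_le_ne_top (S_ne_top μ t) (measure_mono (union_subset inter_subset_left
        inter_subset_left))), measureReal_union _ (mB _) (fB _) (fB _), S_near_vol h1,
      S_near_vol h2, S_near_vol h3]
    · ring
    · rw [Set.disjoint_left]
      rintro z ⟨g1, g2⟩ ⟨_, g3⟩
      exact S_two h h2 h3 h23 g1 g2 g3
    · rw [Set.disjoint_left]
      rintro z ⟨g1, g2⟩ (⟨_, g3⟩ | ⟨_, g3⟩)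
      · exact S_two h h1 h2 h12 g1 g2 g3
      · exact S_two h h1 h3 h13 g1 g2 g3
  have e2 : volume.real (S μ t) = Real.pi * rs μ ^ 2 := vol_ball _ (rs_pos h).le
  have hsub : (S μ t \ ⋃ l, B μ l) ∪ ((S μ t ∩ B μ l1) ∪ ((S μ t ∩ B μ l2) ∪ (S μ t ∩ B μ l3)))
      ⊆ S μ t := by
    apply union_subset sdiff_subset
    exact union_subset inter_subset_left (union_subset inter_subset_left inter_subset_left)
  have hle := measureReal_mono (μ := volume) hsub (S_ne_top μ t)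
  rw [measureReal_union _ ((mB _).union ((mB _).union (mB _)))
    (ne_top_of_le_ne_top (S_ne_top μ t) (measure_mono sdiff_subset))
    (ne_top_of_le_ne_top (S_ne_top μ t) (measure_mono (union_subset inter_subset_left
      (union_subset inter_subset_left inter_subset_left)))), e1, e2] at hle
  · linarith
  · rw [Set.disjoint_left]
    rintro z ⟨_, g⟩ (⟨_, g1⟩ | ⟨_, g1⟩ | ⟨_, g1⟩)
    · exact g (mem_iUnion.2 ⟨_, g1⟩)
    · exact g (mem_iUnion.2 ⟨_, g1⟩)
    · exact g (mem_iUnion.2 ⟨_, g1⟩)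

/-- a big disc that meets the cell is centred at a corner of the cell -/
def Corner (l : ℤ × ℤ) : Prop := (l.1 = 0 ∨ l.1 = 1) ∧ (l.2 = 0 ∨ l.2 = 1)

theorem corner_of_mem {μ : ℝ} (h : Ad μ) {l : ℤ × ℤ} {z : ℂ} (hz : z ∈ cell 0) (hB : z ∈ B μ l) :
    Corner l := by
  unfold B at hB
  rw [mem_ball, dist_eq_norm] at hB
  have h1 : ‖z - lat l‖ ^ 2 < 1 / 3 :=
    (pow_lt_pow_left₀ hB (norm_nonneg _) (by norm_num)).trans (rr_sq_lt h)
  rw [normSq_eq, al_sub, be_sub, al_lat, be_lat] at h1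
  rw [mem_cell_zero] at hz
  obtain ⟨⟨a1, a2⟩, b1, b2⟩ := hz
  obtain ⟨m, n⟩ := l
  simp only at h1
  have hm : (al z - m) ^ 2 < 1 := by
    nlinarith [sq_nonneg ((al z - m) + 2 * (be z - n))]
  have hn : (be z - n) ^ 2 < 1 := by
    nlinarith [sq_nonneg (2 * (al z - m) + (be z - n))]
  have hm' := abs_lt.1 ((sq_lt_one_iff_abs_lt_one _).1 hm)
  have hn' := abs_lt.1 ((sq_lt_one_iff_abs_lt_one _).1 hn)
  have m1 : (-1 : ℝ) < m := by linarith
  have m2 : (m : ℝ) < 2 := by linarith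
  have n1 : (-1 : ℝ) < n := by linarith
  have n2 : (n : ℝ) < 2 := by linarith
  have m1' : -1 < m := by exact_mod_cast m1
  have m2' : m < 2 := by exact_mod_cast m2
  have n1' : -1 < n := by exact_mod_cast n1
  have n2' : n < 2 := by exact_mod_cast n2
  unfold Corner
  simp only
  omega

/-- the small discs lie in the open cell -/
theorem S_subset_ocell {μ : ℝ} (h : Ad μ) {t : ℝ} (ht : IsC t) : S μ t ⊆ ocell := by
  intro z hz
  unfold S at hz
  rw [mem_ball, dist_eq_norm] at hz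
  have h1 : ‖z - cc t‖ ^ 2 < (1 / 5) ^ 2 :=
    (pow_lt_pow_left₀ hz (norm_nonneg _) (by norm_num)).trans
      (pow_lt_pow_left₀ (rs_lt h) (rs_pos h).le (by norm_num))
  rw [normSq_eq, al_sub, be_sub, al_cc, be_cc] at h1
  have hm : (al z - t) ^ 2 < (1 / 3) ^ 2 := by
    nlinarith [sq_nonneg ((al z - t) + 2 * (be z - t))]
  have hn : (be z - t) ^ 2 < (1 / 3) ^ 2 := by
    nlinarith [sq_nonneg (2 * (al z - t) + (be z - t))]
  have hm' := abs_lt.1 (abs_lt_of_sq_lt_sq hm (by norm_num))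
  have hn' := abs_lt.1 (abs_lt_of_sq_lt_sq hn (by norm_num))
  unfold ocell
  rcases ht with rfl | rfl
  · refine ⟨⟨?_, ?_⟩, ?_, ?_⟩ <;> linarith
  · refine ⟨⟨?_, ?_⟩, ?_, ?_⟩ <;> linarith

/-- the hole: the open cell minus the closed discs -/
def H (μ : ℝ) : Set ℂ := ocell \ (((closedBall (lat (0, 0)) (rr μ) ∪ closedBall (lat (1, 0)) (rr μ)) ∪
  (closedBall (lat (0, 1)) (rr μ) ∪ closedBall (lat (1, 1)) (rr μ))) ∪
  (closedBall (cc (1 / 3)) (rs μ) ∪ closedBall (cc (2 / 3)) (rs μ)))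

theorem isOpen_H (μ : ℝ) : IsOpen (H μ) := by
  apply isOpen_ocell.sdiff
  exact ((isClosed_closedBall.union isClosed_closedBall).union
    (isClosed_closedBall.union isClosed_closedBall)).union
    (isClosed_closedBall.union isClosed_closedBall)

theorem H_subset_cell (μ : ℝ) : H μ ⊆ cell 0 := sdiff_subset.trans ocell_subset

theorem H_ne_top (μ : ℝ) : volume (H μ) ≠ ⊤ :=
  ne_top_of_le_ne_top volume_cell_zero_ne_top (measure_mono (H_subset_cell μ))

theorem H_not_B {μ : ℝ} (h : Ad μ) {z : ℂ} (hz : z ∈ H μ) (l : ℤ × ℤ) : z ∉ B μ l := by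
  intro hB
  have hc := corner_of_mem h (H_subset_cell μ hz) hB
  obtain ⟨_, hz2⟩ := hz
  apply hz2
  have hB' : z ∈ closedBall (lat l) (rr μ) := ball_subset_closedBall hB
  obtain ⟨m, n⟩ := l
  obtain ⟨hm | hm, hn | hn⟩ := hc <;> simp only at hm hn <;> subst hm <;> subst hn
  · exact Or.inl (Or.inl (Or.inl hB'))
  · exact Or.inl (Or.inr (Or.inl hB'))
  · exact Or.inl (Or.inl (Or.inr hB'))
  · exact Or.inl (Or.inr (Or.inr hB'))

theorem H_not_S {μ : ℝ} {z : ℂ} (hz : z ∈ H μ) {t : ℝ} (ht : IsC t) : z ∉ S μ t := by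
  intro hS
  obtain ⟨_, hz2⟩ := hz
  apply hz2
  have hS' : z ∈ closedBall (cc t) (rs μ) := ball_subset_closedBall hS
  rcases ht with rfl | rfl
  · exact Or.inr (Or.inl hS')
  · exact Or.inr (Or.inr hS')

theorem null_al (c : ℝ) : volume {z : ℂ | al z = c} = 0 := by
  obtain ⟨z0, hz0, _⟩ := exists_coords c 0
  have : {z : ℂ | al z = c} = (fun z => z + (-z0)) ⁻¹' {z : ℂ | al z = 0} := by
    ext z
    simp only [mem_ofPred_eq, mem_preimage, ← sub_eq_add_neg]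
    rw [al_sub, hz0, sub_eq_zero]
  rw [this, measure_preimage_add_right]
  let L : ℂ →ₗ[ℝ] ℝ := Complex.reLm - (1 / √3) • Complex.imLm
  have hL : ∀ z, L z = al z := by
    intro z
    simp [L, al]; ring
  have h2 : {z : ℂ | al z = 0} = (LinearMap.ker L : Set ℂ) := by
    ext z; simp [← hL]
  rw [h2]
  apply Measure.addHaar_submodule
  intro htop
  obtain ⟨z1, hz1, _⟩ := exists_coords 1 0
  have : z1 ∈ LinearMap.ker L := by rw [htop]; trivial
  rw [LinearMap.mem_ker, hL, hz1] at this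
  norm_num at this

theorem null_be (c : ℝ) : volume {z : ℂ | be z = c} = 0 := by
  obtain ⟨z0, _, hz0⟩ := exists_coords 0 c
  have : {z : ℂ | be z = c} = (fun z => z + (-z0)) ⁻¹' {z : ℂ | be z = 0} := by
    ext z
    simp only [mem_ofPred_eq, mem_preimage, ← sub_eq_add_neg]
    rw [be_sub, hz0, sub_eq_zero]
  rw [this, measure_preimage_add_right]
  let L : ℂ →ₗ[ℝ] ℝ := (2 / √3) • Complex.imLm
  have hL : ∀ z, L z = be z := by
    intro z
    simp [L, be]; ring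
  have h2 : {z : ℂ | be z = 0} = (LinearMap.ker L : Set ℂ) := by
    ext z; simp [← hL]
  rw [h2]
  apply Measure.addHaar_submodule
  intro htop
  obtain ⟨z1, _, hz1⟩ := exists_coords 0 1
  have : z1 ∈ LinearMap.ker L := by rw [htop]; trivial
  rw [LinearMap.mem_ker, hL, hz1] at this
  norm_num at this

theorem H_ge {μ : ℝ} (h : Ad μ) :
    p - w μ - 2 * (Real.pi * rs μ ^ 2 - 3 * Len (rs μ) (rr μ) (1 / √3)) ≤ volume.real (H μ) := by
  set N : Set ℂ := ({z : ℂ | al z = 0} ∪ {z : ℂ | be z = 0}) ∪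
    ((sphere (lat (0, 0)) (rr μ) ∪ sphere (lat (1, 0)) (rr μ)) ∪
    (sphere (lat (0, 1)) (rr μ) ∪ sphere (lat (1, 1)) (rr μ))) ∪
    (sphere (cc (1 / 3)) (rs μ) ∪ sphere (cc (2 / 3)) (rs μ)) with hN
  have hN0 : volume N = 0 := by
    rw [hN]
    simp only [measure_union_null_iff, Measure.addHaar_sphere, null_al, null_be, and_self]
  have hNr : volume.real N = 0 := by rw [measureReal_def, hN0]; rfl
  set X1 := cell 0 ∩ ⋃ l, B μ l with hX1
  set X2 := S μ (1 / 3) \ ⋃ l, B μ l with hX2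
  set X3 := S μ (2 / 3) \ ⋃ l, B μ l with hX3
  have hsub : cell 0 ⊆ H μ ∪ (X1 ∪ (X2 ∪ (X3 ∪ N))) := by
    intro z hz
    by_cases hB : z ∈ ⋃ l, B μ l
    · exact Or.inr (Or.inl ⟨hz, hB⟩)
    by_cases hS1 : z ∈ S μ (1 / 3)
    · exact Or.inr (Or.inr (Or.inl ⟨hS1, hB⟩))
    by_cases hS2 : z ∈ S μ (2 / 3)
    · exact Or.inr (Or.inr (Or.inr (Or.inl ⟨hS2, hB⟩)))
    by_cases hzN : z ∈ N
    · exact Or.inr (Or.inr (Or.inr (Or.inr hzN)))
    refine Or.inl ⟨?_, ?_⟩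
    · rw [mem_cell_zero] at hz
      obtain ⟨⟨a1, a2⟩, b1, b2⟩ := hz
      refine ⟨⟨lt_of_le_of_ne a1 ?_, a2⟩, lt_of_le_of_ne b1 ?_, b2⟩
      · intro e; exact hzN (Or.inl (Or.inl (Or.inl e.symm)))
      · intro e; exact hzN (Or.inl (Or.inl (Or.inr e.symm)))
    · have key : ∀ (c : ℂ) (s : ℝ), z ∈ closedBall c s → z ∈ ball c s ∨ z ∈ sphere c s := by
        intro c s hcs
        rw [mem_closedBall] at hcs
        rcases lt_or_eq_of_le hcs with g | g
        · exact Or.inl g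
        · exact Or.inr g
      have keyB : ∀ l, z ∉ ball (lat l) (rr μ) := fun l hl => hB (mem_iUnion.2 ⟨l, hl⟩)
      rintro (((g | g) | (g | g)) | (g | g)) <;> rcases key _ _ g with g' | g'
      · exact keyB _ g'
      · exact hzN (Or.inl (Or.inr (Or.inl (Or.inl g'))))
      · exact keyB _ g'
      · exact hzN (Or.inl (Or.inr (Or.inl (Or.inr g'))))
      · exact keyB _ g'
      · exact hzN (Or.inl (Or.inr (Or.inr (Or.inl g'))))
      · exact keyB _ g'
      · exact hzN (Or.inl (Or.inr (Or.inr (Or.inr g'))))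
      · exact hS1 g'
      · exact hzN (Or.inr (Or.inl g'))
      · exact hS2 g'
      · exact hzN (Or.inr (Or.inr g'))
  have hfX1 : volume X1 ≠ ⊤ := ne_top_of_le_ne_top volume_cell_zero_ne_top (measure_mono inter_subset_left)
  have hfX2 : volume X2 ≠ ⊤ := ne_top_of_le_ne_top (S_ne_top _ _) (measure_mono sdiff_subset)
  have hfX3 : volume X3 ≠ ⊤ := ne_top_of_le_ne_top (S_ne_top _ _) (measure_mono sdiff_subset)
  have hfN : volume N ≠ ⊤ := by rw [hN0]; simp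
  have hle := measureReal_mono (μ := volume) hsub (by
    simp only [ne_eq, measure_union_eq_top_iff, not_or]
    exact ⟨H_ne_top μ, hfX1, hfX2, hfX3, hfN⟩)
  have h1 := measureReal_union_le (μ := volume) (H μ) (X1 ∪ (X2 ∪ (X3 ∪ N)))
  have h2 := measureReal_union_le (μ := volume) X1 (X2 ∪ (X3 ∪ N))
  have h3 := measureReal_union_le (μ := volume) X2 (X3 ∪ N)
  have h4 := measureReal_union_le (μ := volume) X3 N
  have h5 := cell_B_le h
  have h6 := S_diff_le h (t := 1 / 3) (Or.inl rfl)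
  have h7 := S_diff_le h (t := 2 / 3) (Or.inr rfl)
  have h8 : volume.real (cell 0) = p := rfl
  rw [h8] at hle
  linarith

end Pool.Agent.TH388.GM
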