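import Pool.Agent.TH388.GM.Small

/-! Improving a periodic arrangement: hexagonal arrangement, small discs in its holes, and scaled
copies of the given arrangement in the rest. -/

namespace Pool.Agent.TH388.GM
open MeasureTheory Metric Set

/-- centres and radii of the three base discs -/
noncomputable def bx : Fin 3 → ℂ := ![0, cc (1 / 3), cc (2 / 3)]
noncomputable def bρ (μ : ℝ) : Fin 3 → ℝ := ![rr μ, rs μ, rs μ]

theorem max_le_add {μ a b : ℝ} (_h0 : 0 ≤ μ) (h1 : μ ≤ 1) (ha : 0 < a) (hb : 0 < b) :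
    max (a + μ * b) (b + μ * a) ≤ a + b := by
  apply max_le <;> nlinarith

/-- the condition for the base discs, in terms of differences -/
theorem base_cond {μ : ℝ} (h : Ad μ) : ∀ (a b : Fin 3) (m : ℤ × ℤ), (a ≠ b ∨ m ≠ 0) →
    max (bρ μ a + μ * bρ μ b) (bρ μ b + μ * bρ μ a) ≤ ‖bx a - bx b + lat m‖ := by
  have hμ := mu_pos h
  have h1 := h.hi
  have hr := rr_pos h
  have hs := rs_pos h
  have hrs := rs_lt_rr h
  have e1 := rr_eq h
  have e2 := rs_eq h
  -- equal types
  have same : ∀ (a b : Fin 3) (m : ℤ × ℤ), bx a = bx b → m ≠ 0 → bρ μ a ≤ rr μ → bρ μ b ≤ rr μ →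
      max (bρ μ a + μ * bρ μ b) (bρ μ b + μ * bρ μ a) ≤ ‖bx a - bx b + lat m‖ := by
    intro a b m hab hm ha hb
    rw [hab, sub_self, zero_add]
    refine le_trans ?_ (one_le_norm_lat hm)
    apply max_le <;> nlinarith
  -- big and small
  have bs : ∀ (t : ℝ) (ht : IsC t) (m : ℤ × ℤ),
      max (rs μ + μ * rr μ) (rr μ + μ * rs μ) ≤ ‖cc t - lat m‖ := by
    intro t ht m
    refine le_trans ?_ (cc_sub_ge ht m)
    apply max_le <;> nlinarith
  have sb : ∀ (t : ℝ) (ht : IsC t) (m : ℤ × ℤ),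
      max (rr μ + μ * rs μ) (rs μ + μ * rr μ) ≤ ‖0 - cc t + lat m‖ := by
    intro t ht m
    have := bs t ht m
    rw [max_comm] at this
    have e : (0 : ℂ) - cc t + lat m = -(cc t - lat m) := by ring
    rw [e, norm_neg]; exact this
  have bs' : ∀ (t : ℝ) (ht : IsC t) (m : ℤ × ℤ),
      max (rs μ + μ * rr μ) (rr μ + μ * rs μ) ≤ ‖cc t - 0 + lat m‖ := by
    intro t ht m
    have := bs t ht (-m)
    have e : cc t - 0 + lat m = cc t - lat (-m) := by rw [lat_neg]; ring
    rw [e]; exact this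
  -- two small ones of different types
  have ss : ∀ (m : ℤ × ℤ), max (rs μ + μ * rs μ) (rs μ + μ * rs μ) ≤
      ‖cc (1 / 3) - cc (2 / 3) + lat m‖ := by
    intro m
    have e : cc (1 / 3) - cc (2 / 3) + lat m = -(cc (1 / 3) - lat m) := by
      have : cc (2 / 3) = cc (1 / 3) + cc (1 / 3) := by
        apply Complex.ext
        · simp [cc]; norm_num
        · simp [cc]; ring
      rw [this]; ring
    rw [e, norm_neg, max_self]
    refine le_trans ?_ (cc_sub_ge (Or.inl rfl) m)
    nlinarith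
  have ss' : ∀ (m : ℤ × ℤ), max (rs μ + μ * rs μ) (rs μ + μ * rs μ) ≤
      ‖cc (2 / 3) - cc (1 / 3) + lat m‖ := by
    intro m
    have := ss (-m)
    have e : cc (2 / 3) - cc (1 / 3) + lat m = -(cc (1 / 3) - cc (2 / 3) + lat (-m)) := by
      rw [lat_neg]; ring
    rw [e, norm_neg]; exact this
  have hb : ∀ a : Fin 3, bρ μ a ≤ rr μ := by
    intro a
    fin_cases a
    · simp [bρ]
    · simp [bρ]; exact hrs.le
    · simp [bρ]; exact hrs.le
  intro a b m hab
  by_cases he : a = b
  · subst he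
    exact same a a m rfl (hab.resolve_left (fun h => h rfl)) (hb a) (hb a)
  · fin_cases a <;> fin_cases b
    · exact absurd rfl he
    · exact sb _ (Or.inl rfl) m
    · exact sb _ (Or.inr rfl) m
    · exact bs' _ (Or.inl rfl) m
    · exact absurd rfl he
    · exact ss m
    · exact bs' _ (Or.inr rfl) m
    · exact ss' m
    · exact absurd rfl he

theorem bρ_pos {μ : ℝ} (h : Ad μ) (a : Fin 3) : 0 < bρ μ a := by
  fin_cases a
  · exact rr_pos h
  · exact rs_pos h
  · exact rs_pos h

/-- translates of base discs do not meet the hole -/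
theorem base_H {μ : ℝ} (h : Ad μ) (a : Fin 3) (m : ℤ × ℤ) {z : ℂ}
    (hz : z ∈ ball (bx a + lat m) (bρ μ a)) : z ∉ H μ := by
  intro hH
  have small : ∀ t, IsC t → z ∈ ball (cc t + lat m) (rs μ) → False := by
    intro t ht hz
    have h1 : z - lat m ∈ S μ t := by
      unfold S
      rw [mem_ball, dist_eq_norm] at *
      rwa [sub_sub, add_comm (lat m)]
    have h2 := ocell_subset (S_subset_ocell h ht h1)
    have h3 : fl (z - lat m) = 0 := h2
    have h4 : fl z = 0 := H_subset_cell μ hH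
    rw [fl_sub_lat, h4, zero_sub, neg_eq_zero] at h3
    subst h3
    rw [lat_zero, sub_zero] at h1
    exact H_not_S hH ht h1
  fin_cases a
  · apply H_not_B h hH m
    simpa [bx, bρ, B] using hz
  · exact small _ (Or.inl rfl) hz
  · exact small _ (Or.inr rfl) hz

theorem ball_sub_lat {z c : ℂ} {s : ℝ} {l : ℤ × ℤ} (hz : z ∈ ball (c + lat l) s) :
    z - lat l ∈ ball c s := by
  rw [mem_ball, dist_eq_norm] at *
  rwa [sub_sub, add_comm (lat l)]

/-- the combined periodic arrangement -/
theorem combine {μ : ℝ} (h : Ad μ) {κ : Type} {y : κ → ℂ} {τ : κ → ℝ} (hy : IsArr μ y τ)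
    (hH : ∀ k, ball (y k) (τ k) ⊆ H μ) :
    IsArr μ (pX (Sum.elim bx y)) (pR (Sum.elim (bρ μ) τ)) := by
  have hμ := mu_pos h
  have h1 := h.hi
  refine ⟨?_, ?_⟩
  · rintro ⟨l, a | k⟩
    · exact bρ_pos h a
    · exact hy.1 k
  · -- base disc against a filling disc
    have mixed : ∀ (l l' : ℤ × ℤ) (a : Fin 3) (k : κ),
        bρ μ a + τ k ≤ ‖(bx a + lat l) - (y k + lat l')‖ := by
      intro l l' a k
      rw [← dist_eq_norm, ← disjoint_ball_ball_iff (bρ_pos h a) (hy.1 k), Set.disjoint_left]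
      intro z hz hz'
      have g1 := hH k (ball_sub_lat hz')
      refine base_H h a (l - l') ?_ g1
      rw [mem_ball, dist_eq_norm] at *
      rw [lat_sub]
      have e : z - lat l' - (bx a + (lat l - lat l')) = z - (bx a + lat l) := by ring
      rw [e]
      exact hz
    rintro ⟨l, a | k⟩ ⟨l', b | k'⟩ hne
    · simp only [pX, pR, Sum.elim_inl]
      have := base_cond h a b (l - l') (by
        by_contra hc
        push Not at hc
        apply hne
        rw [hc.1, sub_eq_zero.1 hc.2])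
      have e : bx a + lat l - (bx b + lat l') = bx a - bx b + lat (l - l') := by
        rw [lat_sub]; ring
      rw [e]; exact this
    · simp only [pX, pR, Sum.elim_inl, Sum.elim_inr]
      exact (max_le_add hμ.le h1.le (bρ_pos h a) (hy.1 k')).trans (mixed l l' a k')
    · simp only [pX, pR, Sum.elim_inl, Sum.elim_inr]
      rw [norm_sub_rev, max_comm]
      exact (max_le_add hμ.le h1.le (bρ_pos h b) (hy.1 k)).trans (mixed l' l b k)
    · simp only [pX, pR, Sum.elim_inr]
      by_cases hl : l = l'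
      · subst hl
        rw [add_sub_add_right_eq_sub]
        apply hy.2
        rintro rfl
        exact hne rfl
      · refine (max_le_add hμ.le h1.le (hy.1 k) (hy.1 k')).trans ?_
        rw [← dist_eq_norm, ← disjoint_ball_ball_iff (hy.1 k) (hy.1 k'), Set.disjoint_left]
        intro z hz hz'
        have g1 : fl (z - lat l) = 0 := H_subset_cell μ (hH k (ball_sub_lat hz))
        have g2 : fl (z - lat l') = 0 := H_subset_cell μ (hH k' (ball_sub_lat hz'))
        rw [fl_sub_lat, sub_eq_zero] at g1 g2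
        exact hl (g1.symm.trans g2)

/-- total areas per cell of periodic arrangements -/
def T (μ : ℝ) : Set ℝ := {t | ∃ (ι : Type) (_ : Fintype ι) (x : ι → ℂ) (ρ : ι → ℝ),
  IsArr μ (pX x) (pR ρ) ∧ t = ∑ i, Real.pi * ρ i ^ 2}

theorem step {μ : ℝ} (h : Ad μ) {t : ℝ} (ht : t ∈ T μ) {ε : ℝ} (hε : 0 < ε) : ∃ t' ∈ T μ,
    Real.pi * rr μ ^ 2 + 2 * (Real.pi * rs μ ^ 2) + t / p * volume.real (H μ) - ε ≤ t' := by
  obtain ⟨ι, _, x, ρ, hA, rfl⟩ := ht
  obtain ⟨κ, _, y, τ, hy, hH, hle⟩ := fill hA (isOpen_H μ) (H_ne_top μ) hε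
  refine ⟨_, ⟨Fin 3 ⊕ κ, inferInstance, Sum.elim bx y, Sum.elim (bρ μ) τ, combine h hy hH, rfl⟩, ?_⟩
  rw [Fintype.sum_sum_type]
  simp only [Sum.elim_inl, Sum.elim_inr]
  rw [Fin.sum_univ_three]
  have e0 : bρ μ 0 = rr μ := rfl
  have e1 : bρ μ 1 = rs μ := rfl
  have e2 : bρ μ 2 = rs μ := rfl
  rw [e0, e1, e2]
  linarith

theorem w_pos {μ : ℝ} (h : Ad μ) : 0 < w μ := by
  -- the disc of radius 1/2 around the origin meets no other disc in ... use the area bound
  have hp := p_pos
  -- a small ball around the origin lies in `O0`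
  have hsub : ball (0:ℂ) (1 - rr μ) ⊆ O0 μ := by
    intro z hz
    rw [mem_ball, dist_zero_right] at hz
    have hr := half_lt_rr h
    refine ⟨?_, ?_⟩
    · unfold B
      rw [mem_ball, dist_eq_norm, lat_zero, sub_zero]; linarith
    · have key : ∀ d, d ≠ 0 → z ∉ B μ d := by
        intro d hd hzd
        unfold B at hzd
        rw [mem_ball, dist_eq_norm] at hzd
        have h1 := one_le_norm_lat hd
        have h2 : ‖lat d‖ ≤ ‖z‖ + ‖z - lat d‖ := by
          have := norm_sub_le z (z - lat d)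
          rwa [sub_sub_cancel] at this
        linarith
      rintro ((g | g) | g)
      · exact key _ (by decide) g
      · exact key _ (by decide) g
      · exact key _ (by decide) g
  have h1 := measureReal_mono (μ := volume) hsub O0_ne_top
  have hr := rr_sq_lt h
  have hr1 : rr μ < 1 := by nlinarith [rr_pos h]
  rw [vol_ball _ (by linarith)] at h1
  have : 0 < Real.pi * (1 - rr μ) ^ 2 := by
    have : 0 < 1 - rr μ := by linarith
    positivity
  unfold w
  linarith

/-- **Main step.** Some periodic arrangement has density larger than the density of the hexagonal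
arrangement relative to its union. -/
theorem exists_dense {μ : ℝ} (h : Ad μ) : ∃ t ∈ T μ, Real.pi * rr μ ^ 2 / w μ < t / p := by
  by_contra hcon
  push Not at hcon
  have hp := p_pos
  have hw := w_pos h
  have hr := rr_pos h
  have hs := rs_pos h
  have hμ := mu_pos h
  have hpi := Real.pi_pos
  set q := Real.pi * rr μ ^ 2 / w μ with hq
  have hbdd : BddAbove (T μ) := ⟨q * p, fun t ht => by
    have := hcon t ht
    rwa [div_le_iff₀ hp] at this⟩
  have hne : (T μ).Nonempty := ⟨0, Empty, inferInstance, Empty.elim, Empty.elim,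
    ⟨fun i => i.2.elim, fun i => i.2.elim⟩, by simp⟩
  set D := sSup (T μ) with hD
  have hDq : D ≤ q * p := csSup_le hne (fun t ht => by
    have := hcon t ht
    rwa [div_le_iff₀ hp] at this)
  set σ := Real.pi * rr μ ^ 2 + 2 * (Real.pi * rs μ ^ 2) with hσ
  set V := volume.real (H μ) with hV
  have hV0 : 0 ≤ V := measureReal_nonneg
  -- fixed point inequality
  have hfix : σ + D / p * V ≤ D := by
    apply le_of_forall_pos_le_add
    intro ε hε
    -- pick t close to D
    obtain ⟨t, ht, htD⟩ := exists_lt_of_lt_csSup hne (show D - ε * p / (2 * (V + 1)) < D by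
      have : 0 < ε * p / (2 * (V + 1)) := by positivity
      linarith)
    obtain ⟨t', ht', hle⟩ := step h ht (half_pos hε)
    have h1 : t' ≤ D := le_csSup hbdd ht'
    have h2 : D / p * V ≤ t / p * V + ε / 2 := by
      have h3 : D / p ≤ t / p + ε / (2 * (V + 1)) := by
        rw [← sub_le_iff_le_add', ← sub_div, div_le_div_iff₀ hp (by positivity)]
        have : (D - t) < ε * p / (2 * (V + 1)) := by linarith
        rw [lt_div_iff₀ (by positivity)] at this
        exact this.le
      have h4 : ε / (2 * (V + 1)) * V ≤ ε / 2 := by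
        rw [div_mul_eq_mul_div, div_le_div_iff₀ (by positivity) (by norm_num)]
        nlinarith
      nlinarith
    linarith
  have hVge := H_ge h
  have hwge := w_ge h
  have hcmp := Len_compare hμ h.hi hs (rs_lt_rr h)
  rw [rr_eq h, rs_eq h] at hcmp
  set ℓ := Len (rr μ) (rr μ) 1
  set ℓ' := Len (rs μ) (rr μ) (1 / √3)
  set r := rr μ
  set s := rs μ
  have hD0 : 0 ≤ D := le_csSup hbdd (by
    exact ⟨Empty, inferInstance, Empty.elim, Empty.elim,
      ⟨fun i => i.2.elim, fun i => i.2.elim⟩, by simp⟩)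
  -- D / p * (w + 2 (π s² - 3 ℓ')) ≥ σ
  have h1 : σ ≤ D / p * (w μ + 2 * (Real.pi * s ^ 2 - 3 * ℓ')) := by
    have h2 : D / p * (p - w μ - 2 * (Real.pi * s ^ 2 - 3 * ℓ')) ≤ D / p * V :=
      mul_le_mul_of_nonneg_left hVge (by positivity)
    have h3 : D / p * p = D := div_mul_cancel₀ _ hp.ne'
    nlinarith
  have h2 : D / p ≤ q := by rw [div_le_iff₀ hp]; exact hDq
  have h4 : q * w μ = Real.pi * r ^ 2 := div_mul_cancel₀ _ hw.ne'
  have hq0 : 0 < q := by positivity
  -- the second factor is nonneg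
  have h5 : 0 ≤ w μ + 2 * (Real.pi * s ^ 2 - 3 * ℓ') := by
    have := S_diff_le h (t := 1 / 3) (Or.inl rfl)
    have h6 : (0:ℝ) ≤ volume.real (S μ (1 / 3) \ ⋃ l, B μ l) := measureReal_nonneg
    linarith
  have h6 : σ ≤ q * (w μ + 2 * (Real.pi * s ^ 2 - 3 * ℓ')) :=
    h1.trans (mul_le_mul_of_nonneg_right h2 h5)
  -- so π s² ≤ q (π s² - 3 ℓ')
  have h7 : Real.pi * s ^ 2 ≤ q * (Real.pi * s ^ 2 - 3 * ℓ') := by
    rw [hσ] at h6
    nlinarith
  -- multiply by w
  have h8 : Real.pi * s ^ 2 * w μ ≤ Real.pi * r ^ 2 * (Real.pi * s ^ 2 - 3 * ℓ') := by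
    calc Real.pi * s ^ 2 * w μ ≤ q * (Real.pi * s ^ 2 - 3 * ℓ') * w μ :=
          mul_le_mul_of_nonneg_right h7 hw.le
      _ = (q * w μ) * (Real.pi * s ^ 2 - 3 * ℓ') := by ring
      _ = _ := by rw [h4]
  have h9 : Real.pi * s ^ 2 * (Real.pi * r ^ 2 - 3 * ℓ) ≤ Real.pi * s ^ 2 * w μ :=
    mul_le_mul_of_nonneg_left hwge (by positivity)
  nlinarith [mul_lt_mul_of_pos_left hcmp hpi]

end Pool.Agent.TH388.GM
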